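import Pool.Agent.V5helper72.HM.Core

/-!
# Two-point bounds and the final estimate (abstract part of AVG)
-/

set_option autoImplicit false

namespace Pool.Agent.V5helper72.HM

open Filter MeasureTheory Topology
open Pool.Agent.N748.GC.ASM

/-- expansion of the product -/
theorem pair_expand {T1 T2 : ℝ} {mc W g : ℝ → ℝ} (hmc : LB mc) (hW : LB W) (hg : LB g) (u u' : ℝ) :
    ∫ t in T1..T2, mc (t + u) * mc (t + u') * ((W (t + u) * g (t + u) - 1) * (W (t + u') * g (t + u') - 1)) =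
      (∫ t in T1..T2, mc (t + u) * mc (t + u') * ((W (t + u) * g (t + u)) * (W (t + u') * g (t + u')))) -
      (∫ t in T1..T2, mc (t + u) * mc (t + u') * (W (t + u) * g (t + u))) -
      (∫ t in T1..T2, mc (t + u) * mc (t + u') * (W (t + u') * g (t + u'))) +
      ∫ t in T1..T2, mc (t + u) * mc (t + u') := by
  have a1 := hmc.shift u
  have a2 := hmc.shift u'
  have b1 := (hW.mul hg).shift u
  have b2 := (hW.mul hg).shift u'
  have m12 := a1.mul a2
  have i1 := (m12.mul (b1.mul b2)).ii T1 T2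
  have i2 := (m12.mul b1).ii T1 T2
  have i3 := (m12.mul b2).ii T1 T2
  have i4 := m12.ii T1 T2
  rw [← intervalIntegral.integral_sub i1 i2, ← intervalIntegral.integral_sub (i1.sub i2) i3,
    ← intervalIntegral.integral_add ((i1.sub i2).sub i3) i4]
  refine intervalIntegral.integral_congr fun t _ => ?_
  ring

theorem near_bound {T1 T2 X N I η : ℝ} (hT : T1 ≤ T2) {mc W g : ℝ → ℝ} (hmc : LB mc) (hW : LB W) (hg : LB g)
    (h0 : ∀ x, 0 ≤ mc x) (hW0 : ∀ x, 0 ≤ W x) (hg0 : ∀ x, 0 ≤ g x) {u u' : ℝ}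
    (hz : |(∫ t in T1..T2, mc (t + u) * mc (t + u')) - X * I| ≤ X * η)
    (hn : ∫ t in T1..T2, mc (t + u) * mc (t + u') * ((W (t + u) * g (t + u)) * (W (t + u') * g (t + u'))) ≤
      X * ((I + η) * N)) :
    ∫ t in T1..T2, mc (t + u) * mc (t + u') * ((W (t + u) * g (t + u) - 1) * (W (t + u') * g (t + u') - 1)) ≤
      X * ((I + η) * (N + 1)) := by
  rw [pair_expand hmc hW hg]
  have n1 : 0 ≤ ∫ t in T1..T2, mc (t + u) * mc (t + u') * (W (t + u) * g (t + u)) :=
    intervalIntegral.integral_nonneg hT fun t _ =>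
      mul_nonneg (mul_nonneg (h0 _) (h0 _)) (mul_nonneg (hW0 _) (hg0 _))
  have n2 : 0 ≤ ∫ t in T1..T2, mc (t + u) * mc (t + u') * (W (t + u') * g (t + u')) :=
    intervalIntegral.integral_nonneg hT fun t _ =>
      mul_nonneg (mul_nonneg (h0 _) (h0 _)) (mul_nonneg (hW0 _) (hg0 _))
  have h1 := (abs_le.mp hz).2
  nlinarith

theorem far_bound {T1 T2 X κ I η e S2 : ℝ} (hT : T1 ≤ T2) (hX : 0 ≤ X) (hI : 0 ≤ I) (hIS : I ≤ S2) (hη : 0 ≤ η)
    (he : 0 ≤ e) (he1 : e ≤ 1) {mc W g : ℝ → ℝ}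
    (hmc : LB mc) (hW : LB W) (hg : LB g)
    (h0 : ∀ x, 0 ≤ mc x) (hW0 : ∀ x, 0 ≤ W x) (hg0 : ∀ x, 0 ≤ g x) (hg1 : ∀ x, g x ≤ 1) {u u' : ℝ}
    (hz : |(∫ t in T1..T2, mc (t + u) * mc (t + u')) - X * I| ≤ X * η)
    (h1 : X * ((1 - 3 * e) * I - 3 * η) ≤ ∫ t in T1..T2, mc (t + u) * mc (t + u') * (W (t + u) * g (t + u)))
    (h2 : X * ((1 - 3 * e) * I - 3 * η) ≤ ∫ t in T1..T2, mc (t + u) * mc (t + u') * (W (t + u') * g (t + u')))
    (hf : ∫ t in T1..T2, mc (t + u) * mc (t + u') * (W (t + u) * W (t + u')) ≤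
      X * ((I + η) * ((1 + e) * κ) + η)) :
    ∫ t in T1..T2, mc (t + u) * mc (t + u') * ((W (t + u) * g (t + u) - 1) * (W (t + u') * g (t + u') - 1)) ≤
      X * ((2 * S2 + 2 * η) * max (κ - 1) 0 + 17 * η) + 7 * e * ∫ t in T1..T2, mc (t + u) * mc (t + u') := by
  rw [pair_expand hmc hW hg]
  set J := ∫ t in T1..T2, mc (t + u) * mc (t + u') with hJ
  have hgW : ∫ t in T1..T2, mc (t + u) * mc (t + u') * ((W (t + u) * g (t + u)) * (W (t + u') * g (t + u'))) ≤
      ∫ t in T1..T2, mc (t + u) * mc (t + u') * (W (t + u) * W (t + u')) := by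
    have a1 := hmc.shift u
    have a2 := hmc.shift u'
    have m12 := a1.mul a2
    refine intervalIntegral.integral_mono_on hT
      ((m12.mul (((hW.mul hg).shift u).mul ((hW.mul hg).shift u'))).ii T1 T2)
      ((m12.mul ((hW.shift u).mul (hW.shift u'))).ii T1 T2) fun t _ => ?_
    have q1 : W (t + u) * g (t + u) ≤ W (t + u) := mul_le_of_le_one_right (hW0 _) (hg1 _)
    have q2 : W (t + u') * g (t + u') ≤ W (t + u') := mul_le_of_le_one_right (hW0 _) (hg1 _)
    have q3 : 0 ≤ W (t + u') * g (t + u') := mul_nonneg (hW0 _) (hg0 _)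
    exact mul_le_mul_of_nonneg_left (mul_le_mul q1 q2 q3 (hW0 _)) (mul_nonneg (h0 _) (h0 _))
  obtain ⟨hz1, hz2⟩ := abs_le.mp hz
  set κp := max (κ - 1) 0 with hκp
  have k1 : κ ≤ 1 + κp := by
    have := le_max_left (κ - 1) 0
    linarith
  have k0 : 0 ≤ κp := le_max_right _ _
  have hJI : X * I ≤ J + X * η := by linarith
  have key : (I + η) * ((1 + e) * κ) + η - 2 * ((1 - 3 * e) * I - 3 * η) + (I + η) ≤
      (2 * S2 + 2 * η) * κp + 7 * e * I + 10 * η := by
    have s1 : (I + η) * ((1 + e) * κ) ≤ (I + η) * ((1 + e) * (1 + κp)) := by gcongr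
    have s2 : (I + η) * ((1 + e) * κp) ≤ (S2 + η) * (2 * κp) := by
      have : (1 + e) * κp ≤ 2 * κp := by nlinarith
      have h3 : I + η ≤ S2 + η := by linarith
      gcongr
      linarith
    have s3 : (I + η) * (1 + e) ≤ I + e * I + 2 * η := by nlinarith
    nlinarith
  have key2 := mul_le_mul_of_nonneg_left key hX
  have s5 : X * (7 * e * I) ≤ 7 * e * J + X * (7 * η) := by
    have : 7 * e * (X * I) ≤ 7 * e * (J + X * η) := by gcongr
    have h6 : e * (X * η) ≤ X * η := mul_le_of_le_one_left (mul_nonneg hX hη) he1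
    nlinarith
  nlinarith

/-- the integral of the kernel near zero -/
theorem near_int {C ζ s r δ : ℝ} (hC : 0 ≤ C) (hδ : 0 < δ) (hζ : ζ = s + r) (hs : 0 ≤ s) (hr0 : 0 ≤ r)
    (hr : r < 1) : ∫ h in (0:ℝ)..1, (C * (max |h| δ) ^ (-ζ) + 1) ≤ C * δ ^ (-s) / (1 - r) + 1 := by
  have hi : IntervalIntegrable (fun h : ℝ => h ^ (-r)) volume 0 1 :=
    intervalIntegral.intervalIntegrable_rpow' (by linarith)
  have hc : Continuous (fun h : ℝ => (max |h| δ) ^ (-ζ)) := by
    refine (continuous_abs.max continuous_const).rpow_const fun h => Or.inl ?_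
    have : 0 < max |h| δ := lt_of_lt_of_le hδ (le_max_right _ _)
    exact this.ne'
  have e1 : ∫ h in (0:ℝ)..1, (C * δ ^ (-s) * h ^ (-r) + 1) = C * δ ^ (-s) / (1 - r) + 1 := by
    rw [intervalIntegral.integral_add (hi.const_mul _) intervalIntegrable_const,
      intervalIntegral.integral_const_mul, integral_rpow (Or.inl (by linarith))]
    have h1 : (-r + 1) ≠ 0 := by linarith
    rw [Real.one_rpow, Real.zero_rpow h1]
    simp
    have : (-r + 1) = 1 - r := by ring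
    rw [this]
    ring
  rw [← e1]
  refine intervalIntegral.integral_mono_on_of_le_Ioo zero_le_one
    (((hc.const_mul C).add continuous_const).intervalIntegrable _ _)
    ((hi.const_mul _).add intervalIntegrable_const) fun h hh => ?_
  have hh0 : 0 < h := hh.1
  have hm : 0 < max |h| δ := lt_of_lt_of_le hδ (le_max_right _ _)
  have e2 : (max |h| δ) ^ (-ζ) = (max |h| δ) ^ (-s) * (max |h| δ) ^ (-r) := by
    rw [← Real.rpow_add hm, hζ]; ring_nf
  have h1 : (max |h| δ) ^ (-s) ≤ δ ^ (-s) :=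
    Real.rpow_le_rpow_of_nonpos hδ (le_max_right _ _) (by linarith)
  have h2 : (max |h| δ) ^ (-r) ≤ h ^ (-r) :=
    Real.rpow_le_rpow_of_nonpos hh0 ((le_abs_self h).trans (le_max_left _ _)) (by linarith)
  rw [e2, mul_assoc]
  have h3 : 0 ≤ (max |h| δ) ^ (-r) := (Real.rpow_pos_of_pos hm _).le
  have h4 : 0 ≤ δ ^ (-s) := (Real.rpow_pos_of_pos hδ _).le
  gcongr

/-- the kernel -/
noncomputable def kk (S2 η C ζ δ : ℝ) (κ : ℝ → ℝ) (h : ℝ) : ℝ :=
  if |h| ≤ 1 then (S2 + η) * (C * (max |h| δ) ^ (-ζ) + 1) + 17 * η else (2 * S2 + 2 * η) * max (κ h - 1) 0 + 17 * η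

theorem kk_avg {S2 η C ζ δ s r H D : ℝ} {κ : ℝ → ℝ} (hS : 0 ≤ S2) (hη : 0 ≤ η) (hC : 0 ≤ C) (hδ : 0 < δ)
    (hζ : ζ = s + r) (hs : 0 ≤ s) (hr0 : 0 ≤ r) (hr : r < 1) (hH : 1 ≤ H) (hκ : Continuous κ)
    (hκe : ∀ h, κ (-h) = κ h) (hD : ∫ h in (1:ℝ)..H, max (κ h - 1) 0 ≤ D * H) :
    Integrable (fun p : ℝ × ℝ => kk S2 η C ζ δ κ (H * (p.1 - p.2))) (m1.prod m1) ∧
      ∫ p, kk S2 η C ζ δ κ (H * (p.1 - p.2)) ∂(m1.prod m1) ≤
        2 / H * ((S2 + η) * (C * δ ^ (-s) / (1 - r) + 1)) + 2 * ((2 * S2 + 2 * η) * D) + 34 * η := by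
  have hH0 : 0 < H := by linarith
  have hmax : ∀ h : ℝ, 0 < max |h| δ := fun h => lt_of_lt_of_le hδ (le_max_right _ _)
  have hc : Continuous (fun h : ℝ => (max |h| δ) ^ (-ζ)) :=
    (continuous_abs.max continuous_const).rpow_const fun h => Or.inl (hmax h).ne'
  have hcn : Continuous (fun h : ℝ => (S2 + η) * (C * (max |h| δ) ^ (-ζ) + 1) + 17 * η) := by fun_prop
  have hcf : Continuous (fun h : ℝ => (2 * S2 + 2 * η) * max (κ h - 1) 0 + 17 * η) := by fun_prop
  have hn0 : ∀ h, 0 ≤ (S2 + η) * (C * (max |h| δ) ^ (-ζ) + 1) + 17 * η := fun h => by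
    have := (Real.rpow_pos_of_pos (hmax h) (-ζ)).le
    positivity
  have hf0 : ∀ h, 0 ≤ (2 * S2 + 2 * η) * max (κ h - 1) 0 + 17 * η := fun h => by
    have : 0 ≤ max (κ h - 1) 0 := le_max_right _ _
    positivity
  have hkm : Measurable (kk S2 η C ζ δ κ) :=
    Measurable.ite (measurableSet_le continuous_abs.measurable measurable_const) hcn.measurable hcf.measurable
  have hk0 : ∀ h, 0 ≤ kk S2 η C ζ δ κ h := fun h => by
    unfold kk
    split_ifs
    · exact hn0 h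
    · exact hf0 h
  have hke : ∀ h, kk S2 η C ζ δ κ (-h) = kk S2 η C ζ δ κ h := fun h => by
    unfold kk
    rw [abs_neg, hκe]
  obtain ⟨M1, hM1⟩ := (isCompact_Icc (a := -H) (b := H)).exists_bound_of_continuousOn hcn.continuousOn
  obtain ⟨M2, hM2⟩ := (isCompact_Icc (a := -H) (b := H)).exists_bound_of_continuousOn hcf.continuousOn
  have hkM : ∀ h, |h| ≤ H → kk S2 η C ζ δ κ h ≤ max M1 M2 := by
    intro h hh
    unfold kk
    split_ifs
    · exact ((le_abs_self _).trans (hM1 h (abs_le.mp hh))).trans (le_max_left _ _)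
    · exact ((le_abs_self _).trans (hM2 h (abs_le.mp hh))).trans (le_max_right _ _)
  obtain ⟨hint, hle⟩ := avg_diff hH0 hkm hk0 hkM
  refine ⟨hint, hle.trans ?_⟩
  have hki : ∀ a b : ℝ, |a| ≤ H → |b| ≤ H → IntervalIntegrable (kk S2 η C ζ δ κ) volume a b := by
    intro a b ha hb
    rw [intervalIntegrable_iff]
    refine Measure.integrableOn_of_bounded (M := max M1 M2) ?_ hkm.aestronglyMeasurable ?_
    · rw [Set.uIoc]; simp
    · rw [ae_restrict_iff' measurableSet_uIoc]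
      filter_upwards with s hs
      rw [Real.norm_eq_abs, abs_of_nonneg (hk0 _)]
      refine hkM s ?_
      rw [Set.mem_uIoc] at hs
      rw [abs_le] at ha hb ⊢
      rcases hs with hs | hs
      · exact ⟨by linarith [hs.1], by linarith [hs.2]⟩
      · exact ⟨by linarith [hs.1], by linarith [hs.2]⟩
  have aH : |H| ≤ H := by rw [abs_of_pos hH0]
  have aH' : |-H| ≤ H := by rw [abs_neg, abs_of_pos hH0]
  have a0 : |(0:ℝ)| ≤ H := by rw [abs_zero]; exact hH0.le
  have a1 : |(1:ℝ)| ≤ H := by rw [abs_one]; exact hH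
  have e1 : ∫ h in (-H)..H, kk S2 η C ζ δ κ h = 2 * ∫ h in (0:ℝ)..H, kk S2 η C ζ δ κ h := by
    rw [← intervalIntegral.integral_add_adjacent_intervals (hki _ _ aH' a0) (hki _ _ a0 aH)]
    have : ∫ h in (-H)..0, kk S2 η C ζ δ κ h = ∫ h in (0:ℝ)..H, kk S2 η C ζ δ κ h := by
      have h1 := intervalIntegral.integral_comp_neg (f := kk S2 η C ζ δ κ) (a := 0) (b := H)
      rw [neg_zero] at h1
      rw [← h1]
      exact intervalIntegral.integral_congr fun h _ => hke h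
    rw [this]; ring
  have e2 : ∫ h in (0:ℝ)..H, kk S2 η C ζ δ κ h =
      (∫ h in (0:ℝ)..1, ((S2 + η) * (C * (max |h| δ) ^ (-ζ) + 1) + 17 * η)) +
      ∫ h in (1:ℝ)..H, ((2 * S2 + 2 * η) * max (κ h - 1) 0 + 17 * η) := by
    rw [← intervalIntegral.integral_add_adjacent_intervals (hki _ _ a0 a1) (hki _ _ a1 aH)]
    congr 1
    · refine intervalIntegral.integral_congr fun h hh => ?_
      rw [Set.uIcc_of_le zero_le_one] at hh
      have : |h| ≤ 1 := abs_le.mpr ⟨by linarith [hh.1], hh.2⟩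
      show kk S2 η C ζ δ κ h = _
      unfold kk
      rw [if_pos this]
    · refine intervalIntegral.integral_congr_ae (Eventually.of_forall fun h hh => ?_)
      rw [Set.uIoc_of_le hH] at hh
      have : ¬ |h| ≤ 1 := by
        rw [not_le]
        exact lt_of_lt_of_le hh.1 (le_abs_self h)
      show kk S2 η C ζ δ κ h = _
      unfold kk
      rw [if_neg this]
  have e3 : ∫ h in (0:ℝ)..1, ((S2 + η) * (C * (max |h| δ) ^ (-ζ) + 1) + 17 * η) =
      (S2 + η) * (∫ h in (0:ℝ)..1, (C * (max |h| δ) ^ (-ζ) + 1)) + 17 * η := by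
    rw [intervalIntegral.integral_add ((by fun_prop : Continuous fun h : ℝ =>
      (S2 + η) * (C * (max |h| δ) ^ (-ζ) + 1)).intervalIntegrable _ _) intervalIntegrable_const,
      intervalIntegral.integral_const_mul]
    simp
  have e4 : ∫ h in (1:ℝ)..H, ((2 * S2 + 2 * η) * max (κ h - 1) 0 + 17 * η) =
      (2 * S2 + 2 * η) * (∫ h in (1:ℝ)..H, max (κ h - 1) 0) + 17 * η * (H - 1) := by
    rw [intervalIntegral.integral_add ((by fun_prop : Continuous fun h : ℝ =>
      (2 * S2 + 2 * η) * max (κ h - 1) 0).intervalIntegrable _ _) intervalIntegrable_const,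
      intervalIntegral.integral_const_mul, intervalIntegral.integral_const, smul_eq_mul]
    ring
  have h5 := near_int hC hδ hζ hs hr0 hr
  rw [e1, e2, e3, e4]
  have h6 : (S2 + η) * (∫ h in (0:ℝ)..1, (C * (max |h| δ) ^ (-ζ) + 1)) ≤
      (S2 + η) * (C * δ ^ (-s) / (1 - r) + 1) := by gcongr
  have h7 : (2 * S2 + 2 * η) * (∫ h in (1:ℝ)..H, max (κ h - 1) 0) ≤ (2 * S2 + 2 * η) * (D * H) := by gcongr
  have e8 : 2 / H * ((S2 + η) * (C * δ ^ (-s) / (1 - r) + 1)) + 2 * ((2 * S2 + 2 * η) * D) + 34 * η =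
      1 / H * (2 * ((S2 + η) * (C * δ ^ (-s) / (1 - r) + 1) + 17 * η +
        ((2 * S2 + 2 * η) * (D * H) + 17 * η * (H - 1)))) := by
    field_simp
    ring
  rw [e8]
  gcongr

end Pool.Agent.V5helper72.HM
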