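import Pool.Agent.N748.HM.Stm
import Pool.Agent.N748.GC.ASM
import Pool.Agent.N748.GC.Ts2
import Pool.Agent.N748.GC.ERG
import Pool.Agent.V5helper72.HM.Pair

/-!
# The weights in windows of length `δ^(-θ)` (job AVG)
-/

set_option autoImplicit false

namespace Pool.Agent.V5helper72.HM

open Finset Filter MeasureTheory MonoidAlgebra Topology Complex
open Pool.Agent.N748.GC Pool.Agent.N748.HM
open Pool.Agent.N748.GC.ASM (LB m1 pt_add Xl_le)

lemma WP_cont (α : ℝ) (z Rs : ℕ) (y : ℝ) (J : ℕ) (δ : ℝ) : Continuous (WP α z Rs y J δ) := by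
  unfold WP
  exact ((ec_cont (BP_ne _ _ _ _ _ _) (1 / 2 + δ)).norm.pow 2).div_const _

lemma WP_nonneg (α : ℝ) (z Rs : ℕ) (y : ℝ) (J : ℕ) (δ u : ℝ) : 0 ≤ WP α z Rs y J δ u := by
  unfold WP
  positivity

lemma G1_meas (A z Rs : ℕ) (y : ℝ) (J : ℕ) (δ : ℝ) : MeasurableSet {u : ℝ | G1 A z Rs y J δ u} := by
  have e1 : {u : ℝ | G1 A z Rs y J δ u} =
      (⋂ i ∈ Finset.range J, {u : ℝ | (A:ℝ) * ‖ec (1 / 2 + δ + u * I) (xc (IB z y i))‖ ≤ RB Rs i}) := by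
    ext u
    simp only [Set.mem_setOf_eq, Set.mem_iInter, Finset.mem_range]
    rfl
  rw [e1]
  exact Finset.measurableSet_biInter _ fun i _ =>
    (isClosed_le (continuous_const.mul (ec_cont (xc_ne _ _ _) (1 / 2 + δ)).norm) continuous_const).measurableSet

lemma G2_meas (α B ε1 : ℝ) (z Rs : ℕ) (y : ℝ) (J : ℕ) (δ : ℝ) : MeasurableSet {u : ℝ | G2 α B ε1 z Rs y J δ u} := by
  have e1 : {u : ℝ | G2 α B ε1 z Rs y J δ u} =
      (⋂ j ∈ Finset.range J, {u : ℝ | (z:ℝ) ≤ be y j → δ * Real.log (be y j) ≤ 1 →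
        ‖ec (1 / 2 + δ + u * I) (BP (fun _ => α) z y j J Rs)‖ ^ 2 ≤
          B * Real.exp ((2 * α ^ 2 + ε1) * VB δ z y j J)}) := by
    ext u
    simp only [Set.mem_setOf_eq, Set.mem_iInter, Finset.mem_range]
    rfl
  rw [e1]
  refine Finset.measurableSet_biInter _ fun j _ => ?_
  by_cases h1 : (z:ℝ) ≤ be y j
  · by_cases h2 : δ * Real.log (be y j) ≤ 1
    · simp only [h1, h2, forall_true_left]
      exact (isClosed_le ((ec_cont (BP_ne _ _ _ _ _ _) (1 / 2 + δ)).norm.pow 2) continuous_const).measurableSet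
    · simp only [h1, h2, forall_true_left, false_implies, Set.setOf_true, MeasurableSet.univ]
  · simp only [h1, false_implies, Set.setOf_true, MeasurableSet.univ]

lemma gP_meas (A : ℕ) (α B ε1 : ℝ) (z Rs : ℕ) (y : ℝ) (J : ℕ) (δ : ℝ) : Measurable (gP A α B ε1 z Rs y J δ) := by
  unfold gP
  exact Measurable.ite ((G1_meas A z Rs y J δ).inter (G2_meas α B ε1 z Rs y J δ)) measurable_const measurable_const

lemma gP_nonneg (A : ℕ) (α B ε1 : ℝ) (z Rs : ℕ) (y : ℝ) (J : ℕ) (δ u : ℝ) : 0 ≤ gP A α B ε1 z Rs y J δ u := by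
  unfold gP; split_ifs <;> norm_num

lemma gP_le (A : ℕ) (α B ε1 : ℝ) (z Rs : ℕ) (y : ℝ) (J : ℕ) (δ u : ℝ) : gP A α B ε1 z Rs y J δ u ≤ 1 := by
  unfold gP; split_ifs <;> norm_num

lemma one_sub_gP (A : ℕ) (α B ε1 : ℝ) (z Rs : ℕ) (y : ℝ) (J : ℕ) (δ u : ℝ) [Decidable (G1 A z Rs y J δ u)]
    [Decidable (G1 A z Rs y J δ u ∧ ¬ G2 α B ε1 z Rs y J δ u)] :
    1 - gP A α B ε1 z Rs y J δ u = (if G1 A z Rs y J δ u then (0:ℝ) else 1) +
      (if G1 A z Rs y J δ u ∧ ¬ G2 α B ε1 z Rs y J δ u then 1 else 0) := by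
  unfold gP
  by_cases h1 : G1 A z Rs y J δ u <;> by_cases h2 : G2 α B ε1 z Rs y J δ u <;> simp [h1, h2]

lemma KX_cont (α : ℝ) (z : ℕ) (y : ℝ) (J : ℕ) (δ : ℝ) : Continuous (KX α z y J δ) := by
  unfold KX
  fun_prop

lemma KX_even (α : ℝ) (z : ℕ) (y : ℝ) (J : ℕ) (δ h : ℝ) : KX α z y J δ (-h) = KX α z y J δ h := by
  unfold KX
  congr 2
  refine sum_congr rfl fun i _ => sum_congr rfl fun p _ => ?_
  rw [neg_mul, Real.cos_neg]

open Classical in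
/-- the two kinds of bad points together -/
lemma bad_both {A : ℕ} {α B ε1 : ℝ} {z Rs : ℕ} {y : ℝ} {J : ℕ} {δ : ℝ} {φ : ℝ → ℝ} (hφ : Continuous φ)
    {T1 T2 x v w : ℝ}
    (h1 : ∫ t in T1..T2, φ t * (WP α z Rs y J δ (t + x) * (if G1 A z Rs y J δ (t + x) then 0 else 1)) ≤ v)
    (h2 : ∫ t in T1..T2, φ t * (WP α z Rs y J δ (t + x) *
      (if G1 A z Rs y J δ (t + x) ∧ ¬ G2 α B ε1 z Rs y J δ (t + x) then 1 else 0)) ≤ w) :
    ∫ t in T1..T2, φ t * (WP α z Rs y J δ (t + x) * (1 - gP A α B ε1 z Rs y J δ (t + x))) ≤ v + w := by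
  have Lφ := LB.cont hφ
  have LW := (LB.cont (WP_cont α z Rs y J δ)).shift x
  have L1 : LB (fun t : ℝ => (if G1 A z Rs y J δ (t + x) then (0:ℝ) else 1)) := by
    refine LB.bdd (B := 1) (Measurable.ite ((G1_meas A z Rs y J δ).preimage (measurable_add_const x))
      measurable_const measurable_const) fun t => ?_
    split_ifs <;> norm_num
  have L2 : LB (fun t : ℝ => (if G1 A z Rs y J δ (t + x) ∧ ¬ G2 α B ε1 z Rs y J δ (t + x) then (1:ℝ) else 0)) := by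
    have hms : MeasurableSet {u : ℝ | G1 A z Rs y J δ u ∧ ¬ G2 α B ε1 z Rs y J δ u} :=
      (G1_meas A z Rs y J δ).inter (G2_meas α B ε1 z Rs y J δ).compl
    refine LB.bdd (B := 1) (Measurable.ite (hms.preimage (measurable_add_const x))
      measurable_const measurable_const) fun t => ?_
    split_ifs <;> norm_num
  have i1 := (Lφ.mul (LW.mul L1)).ii T1 T2
  have i2 := (Lφ.mul (LW.mul L2)).ii T1 T2
  have e1 : (∫ t in T1..T2, φ t * (WP α z Rs y J δ (t + x) * (1 - gP A α B ε1 z Rs y J δ (t + x)))) =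
      (∫ t in T1..T2, φ t * (WP α z Rs y J δ (t + x) * (if G1 A z Rs y J δ (t + x) then 0 else 1))) +
      ∫ t in T1..T2, φ t * (WP α z Rs y J δ (t + x) *
        (if G1 A z Rs y J δ (t + x) ∧ ¬ G2 α B ε1 z Rs y J δ (t + x) then 1 else 0)) := by
    rw [← intervalIntegral.integral_add i1 i2]
    refine intervalIntegral.integral_congr fun t _ => ?_
    show φ t * (WP α z Rs y J δ (t + x) * (1 - gP A α B ε1 z Rs y J δ (t + x))) = _
    rw [one_sub_gP]; ring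
  rw [e1]
  exact add_le_add h1 h2

/-- translates of functions on the torus -/
lemma int_translate {z : ℕ} (F : UnitAddTorus (Sm z) → ℝ) (k : UnitAddTorus (Sm z)) :
    ∫ q, F (q + k) ∂(HP (Sm z)) = ∫ q, F q ∂(HP (Sm z)) := by
  have := QC.HP_add_right (Sm z) k
  exact this.integral_comp (Homeomorph.addRight k).measurableEmbedding F

/-- the average of the cut density over long windows -/
lemma cut_avg (α b : ℝ) (z : ℕ) {ε : ℝ} (hε : 0 < ε) : ∃ H0 : ℝ, 0 < H0 ∧ ∀ H ≥ H0, ∀ t : ℝ,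
    |(∫ x in (0:ℝ)..1, Mc α b z (pt (Sm z) (t + H * x))) - ∫ q, Mc α b z q ∂(HP (Sm z))| ≤ ε := by
  obtain ⟨H0, hH0, h⟩ := ERG.main (Sm z) (QC.Sm_prime z) (Mc α b z) (QC.Mc_cont α b z) ε hε
  refine ⟨H0, hH0, fun H hH t => ?_⟩
  have hHp : 0 < H := hH0.trans_le hH
  have e1 : (∫ x in (0:ℝ)..1, Mc α b z (pt (Sm z) (t + H * x))) =
      (∫ u in t..(t + H), Mc α b z (pt (Sm z) u)) / H := by
    rw [intervalIntegral.integral_comp_add_mul (fun u => Mc α b z (pt (Sm z) u)) hHp.ne' t]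
    rw [smul_eq_mul, mul_zero, add_zero, mul_one]
    field_simp
  rw [e1]
  exact h H hH t

lemma Mc_int_le (α b : ℝ) (z : ℕ) : ∫ q, Mc α b z q ∂(HP (Sm z)) ≤ 1 := by
  have h := integral_mono ((QC.Mc_cont α b z).integrable_of_hasCompactSupport (HasCompactSupport.of_compactSpace _))
    (QC.M0_integrable α (QC.Sm_prime z)) (QC.Mc_le_M0 α b z)
  rwa [QC.M0_int α (QC.Sm_prime z)] at h

lemma M0_sub_int (α b : ℝ) (z : ℕ) : ∫ q, (M0 α (Sm z) q - Mc α b z q) ∂(HP (Sm z)) =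
    1 - ∫ q, Mc α b z q ∂(HP (Sm z)) := by
  rw [integral_sub (QC.M0_integrable α (QC.Sm_prime z))
    ((QC.Mc_cont α b z).integrable_of_hasCompactSupport (HasCompactSupport.of_compactSpace _)),
    QC.M0_int α (QC.Sm_prime z)]

/-- the two-point function of the cut density on the torus -/
noncomputable def F2 (α b : ℝ) (z : ℕ) (p : (UnitAddTorus (Sm z) × UnitAddTorus (Sm z)) × UnitAddTorus (Sm z)) : ℝ :=
  Mc α b z (p.2 + p.1.1) * Mc α b z (p.2 + p.1.2)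

lemma F2_cont (α b : ℝ) (z : ℕ) : Continuous (F2 α b z) :=
  ((QC.Mc_cont α b z).comp (by fun_prop)).mul ((QC.Mc_cont α b z).comp (by fun_prop))

lemma F2_nonneg (α b : ℝ) (z : ℕ) (p) : 0 ≤ F2 α b z p := mul_nonneg (QC.Mc_nonneg α b z _) (QC.Mc_nonneg α b z _)

lemma F2_pt (α b : ℝ) (z : ℕ) (u u' t : ℝ) : F2 α b z ((pt (Sm z) u, pt (Sm z) u'), pt (Sm z) t) =
    Mc α b z (pt (Sm z) (t + u)) * Mc α b z (pt (Sm z) (t + u')) := by
  unfold F2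
  rw [pt_add, pt_add]

lemma F2_int_le (α b : ℝ) {z : ℕ} (hz : 3 ≤ z) (k) :
    ∫ q, F2 α b z (k, q) ∂(HP (Sm z)) ≤ Real.log z ^ b * Real.log z ^ b := by
  have h0 : 0 ≤ Real.log z ^ b := Real.rpow_nonneg (by linarith [QC.one_lt_log hz]) _
  have := norm_integral_le_of_norm_le_const (μ := HP (Sm z)) (f := fun y => F2 α b z (k, y))
    (C := Real.log z ^ b * Real.log z ^ b)
    (Eventually.of_forall fun y => by
      rw [Real.norm_eq_abs, abs_of_nonneg (F2_nonneg α b z _)]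
      exact mul_le_mul (QC.Mc_le α b hz _) (QC.Mc_le α b hz _) (QC.Mc_nonneg α b z _) h0)
  rw [probReal_univ, mul_one] at this
  exact (le_abs_self _).trans (by simpa [Real.norm_eq_abs] using this)

/-- the final estimate at fixed parameters -/
theorem fixed_est {z : ℕ} {α b X H e η C ζ δ s r D S2 εc d ρ : ℝ} {W g κ : ℝ → ℝ}
    (hX : 0 ≤ X) (hT0 : 0 ≤ Xl X) (hT : Xl X ≤ X) (hH : 1 ≤ H)
    (hW : Continuous W) (hW0 : ∀ x, 0 ≤ W x) (hg : Measurable g) (hg0 : ∀ x, 0 ≤ g x) (hg1 : ∀ x, g x ≤ 1)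
    (hρ : 0 < ρ) (he : 0 ≤ e) (hd : 0 ≤ d)
    (hS : 0 ≤ S2) (hη : 0 ≤ η) (hC : 0 ≤ C) (hδ : 0 < δ)
    (hζ : ζ = s + r) (hs : 0 ≤ s) (hr0 : 0 ≤ r) (hr : r < 1) (hκ : Continuous κ)
    (hκe : ∀ h, κ (-h) = κ h) (hD : ∫ h in (1:ℝ)..H, max (κ h - 1) 0 ≤ D * H)
    (h1 : ∀ u, ∫ t in Xl X..X, Mc α b z (pt (Sm z) (t + u)) * (W (t + u) * (1 - g (t + u))) ≤ X * (2 * (e + η)))
    (h2 : ∀ u, ∫ t in Xl X..X, (mz α z (t + u) - Mc α b z (pt (Sm z) (t + u))) * W (t + u) ≤ X * (2 * εc + η))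
    (h3 : ∀ u u', u ≠ u' → ∫ t in Xl X..X, Mc α b z (pt (Sm z) (t + u)) * Mc α b z (pt (Sm z) (t + u')) *
      ((W (t + u) * g (t + u) - 1) * (W (t + u') * g (t + u') - 1)) ≤ X * kk S2 η C ζ δ κ (u - u') +
      7 * e * ∫ t in Xl X..X, Mc α b z (pt (Sm z) (t + u)) * Mc α b z (pt (Sm z) (t + u')))
    (h4 : ∀ t, |(∫ x in (0:ℝ)..1, Mc α b z (pt (Sm z) (t + H * x))) - 1| ≤ d)
    (hfin : 2 / H * ((S2 + η) * (C * δ ^ (-s) / (1 - r) + 1)) + 2 * ((2 * S2 + 2 * η) * D) + 34 * η +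
      7 * e * (1 + d) ^ 2 ≤ ρ ^ 2) :
    ∫ t in Xl X..X, |(∫ x in (0:ℝ)..1, mz α z (t + H * x) * W (t + H * x)) - 1| ≤
      X * (2 * (e + η) + (2 * εc + η) + ρ + d) := by
  obtain ⟨hki, hka⟩ := kk_avg hS hη hC hδ hζ hs hr0 hr hH hκ hκe hD
  have hpc := QC.pt_cont (Sm z)
  have hcore := coreH (T1 := Xl X) (T2 := X) (H := H) hT (by linarith)
    (m := mz α z) (mc := fun s => Mc α b z (pt (Sm z) s)) (W := W) (g := g)
    (B := fun p => X * kk S2 η C ζ δ κ (H * (p.1 - p.2)))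
    (a := X * (2 * (e + η))) (b := X * (2 * εc + η))
    (c := X * (2 / H * ((S2 + η) * (C * δ ^ (-s) / (1 - r) + 1)) + 2 * ((2 * S2 + 2 * η) * D) + 34 * η))
    (e := 7 * e) (d := d) (ρ := ρ)
    (QC.mz_cont α z) ((QC.Mc_cont α b z).comp hpc) (fun x => QC.Mc_nonneg α b z _)
    (fun x => QC.Mc_le_M0 α b z _) hW hW0 hg hg0 hg1 hρ (by linarith) hd h1 h2
    (hki.const_mul X) (by rw [integral_const_mul]; exact mul_le_mul_of_nonneg_left hka hX)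
    (fun x y hxy => by
      have hne : H * x ≠ H * y := fun h => hxy (mul_left_cancel₀ (by linarith : H ≠ 0) h)
      have := h3 (H * x) (H * y) hne
      rw [← mul_sub] at this
      exact this) h4
  refine hcore.trans ?_
  have hTT : X - Xl X ≤ X := by linarith
  have hTT0 : 0 ≤ X - Xl X := by linarith
  set N := 2 / H * ((S2 + η) * (C * δ ^ (-s) / (1 - r) + 1)) + 2 * ((2 * S2 + 2 * η) * D) + 34 * η with hN
  have k1 : X * N + 7 * e * ((X - Xl X) * (1 + d) ^ 2) ≤ X * ρ ^ 2 := by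
    have : 7 * e * ((X - Xl X) * (1 + d) ^ 2) ≤ 7 * e * (X * (1 + d) ^ 2) := by gcongr
    have h6 := mul_le_mul_of_nonneg_left hfin hX
    nlinarith
  have k2 : (X * N + 7 * e * ((X - Xl X) * (1 + d) ^ 2)) / ρ ≤ X * ρ := by
    rw [div_le_iff₀ hρ]
    refine k1.trans (le_of_eq ?_)
    ring
  have k3 : ρ * (X - Xl X) ≤ X * ρ := by nlinarith
  have k4 : d * (X - Xl X) ≤ X * d := by nlinarith
  nlinarith

/-- lower bounds for the good part -/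
lemma low_bound {A : ℕ} {α B ε1 : ℝ} {z Rs : ℕ} {y : ℝ} {J : ℕ} {δ : ℝ} {φ : ℝ → ℝ} (hφ : Continuous φ)
    {T1 T2 x X e I η : ℝ}
    (h1 : |(∫ t in T1..T2, φ t * WP α z Rs y J δ (t + x)) - X * I| ≤ X * (e * I + η))
    (h2 : ∫ t in T1..T2, φ t * (WP α z Rs y J δ (t + x) * (1 - gP A α B ε1 z Rs y J δ (t + x))) ≤
      X * (e * I + η) + X * (e * I + η)) :
    X * ((1 - 3 * e) * I - 3 * η) ≤ ∫ t in T1..T2, φ t * (WP α z Rs y J δ (t + x) * gP A α B ε1 z Rs y J δ (t + x)) := by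
  have Lφ := LB.cont hφ
  have LW := (LB.cont (WP_cont α z Rs y J δ)).shift x
  have Lg := (LB.bdd (B := 1) (gP_meas A α B ε1 z Rs y J δ) (fun s =>
    abs_le.mpr ⟨by linarith [gP_nonneg A α B ε1 z Rs y J δ s], gP_le A α B ε1 z Rs y J δ s⟩)).shift x
  have i1 := (Lφ.mul LW).ii T1 T2
  have i2 := (Lφ.mul (LW.mul ((LB.const 1).sub Lg))).ii T1 T2
  have e1 : ∫ t in T1..T2, φ t * (WP α z Rs y J δ (t + x) * gP A α B ε1 z Rs y J δ (t + x)) =
      (∫ t in T1..T2, φ t * WP α z Rs y J δ (t + x)) -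
      ∫ t in T1..T2, φ t * (WP α z Rs y J δ (t + x) * (1 - gP A α B ε1 z Rs y J δ (t + x))) := by
    rw [← intervalIntegral.integral_sub i1 i2]
    refine intervalIntegral.integral_congr fun t _ => ?_
    show φ t * (WP α z Rs y J δ (t + x) * gP A α B ε1 z Rs y J δ (t + x)) = _
    ring
  rw [e1]
  have h3 := (abs_le.mp h1).1
  nlinarith

lemma z_large (b τ D : ℝ) (hτ : 0 < τ) : ∃ z1 : ℕ, ∀ z ≥ z1, 3 ≤ z ∧
    2 * ((2 * (Real.log z ^ b * Real.log z ^ b) + 2) * (D * (z:ℝ) ^ (-(1 / 4 : ℝ)))) ≤ τ := by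
  have h1 := (isLittleO_log_rpow_rpow_atTop (2 * b) (show (0:ℝ) < 1 / 4 by norm_num)).tendsto_div_nhds_zero
  have h2 : Tendsto (fun x : ℝ => x ^ (-(1 / 4 : ℝ))) atTop (𝓝 0) := tendsto_rpow_neg_atTop (by norm_num)
  have h3 : Tendsto (fun x : ℝ => 2 * (2 * (Real.log x ^ (2 * b) / x ^ ((1:ℝ) / 4)) * D + 2 * (x ^ (-(1 / 4 : ℝ))) * D))
      atTop (𝓝 (2 * (2 * 0 * D + 2 * 0 * D))) :=
    (((h1.const_mul 2).mul_const D).add ((h2.const_mul 2).mul_const D)).const_mul 2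
  rw [show (2 * (2 * 0 * D + 2 * 0 * D) : ℝ) = 0 by ring] at h3
  have h4 := tendsto_natCast_atTop_atTop (R := ℝ) |>.eventually (h3.eventually (ge_mem_nhds hτ))
  obtain ⟨N, hN⟩ := eventually_atTop.mp h4
  refine ⟨max N 3, fun z hz => ⟨le_trans (le_max_right _ _) hz, ?_⟩⟩
  have hz3 : 3 ≤ z := le_trans (le_max_right _ _) hz
  have h5 := hN z (le_trans (le_max_left _ _) hz)
  have hz0 : (0:ℝ) < z := by exact_mod_cast (by omega : 0 < z)
  have hl : 0 < Real.log z := by linarith [QC.one_lt_log hz3]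
  refine le_trans (le_of_eq ?_) h5
  rw [Real.rpow_neg hz0.le, ← Real.rpow_add hl, ← two_mul]
  have : (0:ℝ) < (z:ℝ) ^ ((1:ℝ) / 4) := Real.rpow_pos_of_pos hz0 _
  field_simp

theorem t_AVG (hO : S_ONE3) (hA : S_BADA3) (hB : S_BADB3) (hN : S_NEAR3) (hF : S_FAR3) (hK : S_KAP3)
    (_hM : S_MOM3) (hC : S_CUT3) : S_AVG := by
  classical
  intro α hα c hc θ hθ hαθ ε hε
  -- parameters
  obtain ⟨ε', hε'0, hε'1, hε'e⟩ : ∃ ε' : ℝ, 0 < ε' ∧ ε' ≤ 1 ∧ ε' ≤ ε :=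
    ⟨min ε 1, lt_min hε one_pos, min_le_right _ _, min_le_left _ _⟩
  obtain ⟨ρ, hρ⟩ : ∃ ρ : ℝ, ρ = ε' / 4 := ⟨_, rfl⟩
  have hρ0 : 0 < ρ := by rw [hρ]; positivity
  have hρ1 : ρ ≤ 1 / 4 := by rw [hρ]; linarith
  have hρ2 : ρ ^ 2 ≤ ρ / 4 := by nlinarith
  obtain ⟨e, he⟩ : ∃ e : ℝ, e = ρ ^ 2 / 200 := ⟨_, rfl⟩
  have he0 : 0 < e := by rw [he]; positivity
  have he1 : e ≤ 1 := by rw [he]; nlinarith
  obtain ⟨η, hη⟩ : ∃ η : ℝ, η = ρ ^ 2 / 1000 := ⟨_, rfl⟩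
  have hη0 : 0 < η := by rw [hη]; positivity
  have hη1 : η ≤ 1 := by rw [hη]; nlinarith
  obtain ⟨εc, hεc⟩ : ∃ εc : ℝ, εc = ε' / 32 := ⟨_, rfl⟩
  have hεc0 : 0 < εc := by rw [hεc]; positivity
  obtain ⟨ε1, hε1, hε11, hε12⟩ : ∃ ε1 : ℝ, 0 < ε1 ∧ ε1 ≤ 1 ∧ ε1 ≤ (θ - (α ^ 2 - 1)) / 2 :=
    ⟨min 1 ((θ - (α ^ 2 - 1)) / 2), lt_min one_pos (by linarith), min_le_left _ _, min_le_right _ _⟩
  obtain ⟨ζ, hζ⟩ : ∃ ζ : ℝ, ζ = α ^ 2 + ε1 := ⟨_, rfl⟩
  have hζθ : ζ - 1 < θ := by rw [hζ]; linarith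
  have hζ0 : 0 < ζ := by rw [hζ]; positivity
  obtain ⟨θ', hθ'θ, hθ'0, hθ'ζ⟩ : ∃ θ' : ℝ, θ' < θ ∧ 0 < θ' ∧ ζ - 1 < θ' :=
    ⟨max (θ / 2) ((ζ - 1 + θ) / 2), max_lt (by linarith) (by linarith),
      lt_of_lt_of_le (by linarith) (le_max_left _ _), lt_of_lt_of_le (by linarith) (le_max_right _ _)⟩
  obtain ⟨s, hs0, hsθ, hsζ, hs1⟩ : ∃ s : ℝ, 0 ≤ s ∧ s < θ ∧ s ≤ ζ ∧ ζ - s < 1 := by
    rcases le_total ζ θ' with h | h
    · exact ⟨ζ, hζ0.le, h.trans_lt hθ'θ, le_rfl, by linarith⟩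
    · exact ⟨θ', hθ'0.le, hθ'θ, h, by linarith⟩
  obtain ⟨r, hr⟩ : ∃ r : ℝ, r = ζ - s := ⟨_, rfl⟩
  have hr0 : 0 ≤ r := by linarith
  have hr1 : r < 1 := by linarith
  have hζsr : ζ = s + r := by linarith
  obtain ⟨b, hb⟩ : ∃ b : ℝ, b = α ^ 2 + 1 := ⟨_, rfl⟩
  obtain ⟨A, hαA⟩ : ∃ A : ℕ, α ≤ A := ⟨⌈α⌉₊, Nat.le_ceil α⟩
  obtain ⟨zO, RO, hO⟩ := hO α hα c hc e he0
  obtain ⟨zA, RA, hA⟩ := hA A α hα hαA c hc e he0
  obtain ⟨B, hB1, zB, RB', hB⟩ := hB A α hα hαA ε1 hε1 hε11 c hc e he0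
  obtain ⟨C, hC0, zN, RN, hN⟩ := hN A α hα hαA ε1 hε1 hε11 c hc B hB1
  obtain ⟨zF, RF, hF⟩ := hF α hα c hc e he0
  obtain ⟨Cκ, hCκ, zK, hK⟩ := hK α hα
  obtain ⟨zC, hC⟩ := hC α hα b (by rw [hb]; linarith) εc hεc0
  obtain ⟨zL, hL⟩ := z_large b (ρ ^ 2 / 4) Cκ (by positivity)
  refine ⟨zO + zA + zB + zN + zF + zK + zC + zL, fun z hz => ?_⟩
  obtain ⟨hz3, hzL⟩ := hL z (by omega)
  have hcut := hC z (by omega)
  obtain ⟨H0K, lam, hH0K, hlam1, hK⟩ := hK z (by omega)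
  obtain ⟨δN, hδN, hN⟩ := hN z (by omega)
  obtain ⟨H0c, hH0c, hcav⟩ := cut_avg α b z hεc0
  obtain ⟨S2, hS2⟩ : ∃ S2 : ℝ, S2 = Real.log z ^ b * Real.log z ^ b := ⟨_, rfl⟩
  have hlz : 0 < Real.log z := by linarith [QC.one_lt_log hz3]
  have hS20 : 0 ≤ S2 := by rw [hS2]; positivity
  -- the bound for δ
  obtain ⟨Q, hQ⟩ : ∃ Q : ℝ, Q = 2 * ((S2 + η) * (C / (1 - r) + 1)) := ⟨_, rfl⟩
  have h1r : 0 < 1 - r := by linarith
  have hQ0 : 0 < Q := by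
    rw [hQ]
    have : 0 ≤ C / (1 - r) := div_nonneg hC0 h1r.le
    positivity
  obtain ⟨δb, hδb, hδb2⟩ : ∃ δb : ℝ, 0 < δb ∧ ∀ δ : ℝ, 0 < δ → δ ≤ δb → Q * δ ^ (θ - s) ≤ ρ ^ 2 / 4 := by
    have hθs : 0 < θ - s := by linarith
    refine ⟨(ρ ^ 2 / 4 / Q) ^ (1 / (θ - s)), by positivity, fun δ h0 h1 => ?_⟩
    have h2 := Real.rpow_le_rpow h0.le h1 hθs.le
    rw [← Real.rpow_mul (by positivity), one_div_mul_cancel hθs.ne', Real.rpow_one] at h2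
    calc Q * δ ^ (θ - s) ≤ Q * (ρ ^ 2 / 4 / Q) := by gcongr
      _ = ρ ^ 2 / 4 := by field_simp
  obtain ⟨M, hM1, hM2, hM3⟩ : ∃ M : ℝ, 1 ≤ M ∧ H0K ≤ M ∧ H0c ≤ M :=
    ⟨max (max H0K H0c) 1, le_max_right _ _, (le_max_left _ _).trans (le_max_left _ _),
      (le_max_right _ _).trans (le_max_left _ _)⟩
  obtain ⟨δa, hδa, hδa2⟩ : ∃ δa : ℝ, 0 < δa ∧ ∀ δ : ℝ, 0 < δ → δ ≤ δa → M ≤ δ ^ (-θ) := by
    have hM0 : 0 < M := by linarith
    refine ⟨M ^ (-(1 / θ)), by positivity, fun δ h0 h1 => ?_⟩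
    have h2 := Real.rpow_le_rpow_of_nonpos h0 h1 (by linarith : -θ ≤ 0)
    rw [← Real.rpow_mul hM0.le, neg_mul_neg, one_div_mul_cancel hθ.ne', Real.rpow_one] at h2
    exact h2
  refine ⟨RO + RA + RB' + RN + RF, lam, min (1 / 16) (min δN (min δa δb)), by positivity, min_le_left _ _, ?_⟩
  have hF1c : Continuous (fun p : UnitAddTorus (Sm z) × UnitAddTorus (Sm z) => Mc α b z (p.2 + p.1)) :=
    (QC.Mc_cont α b z).comp (by fun_prop)
  have hF10 : ∀ p : UnitAddTorus (Sm z) × UnitAddTorus (Sm z), 0 ≤ Mc α b z (p.2 + p.1) := fun p =>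
    QC.Mc_nonneg α b z _
  have hF3c : Continuous (fun p : UnitAddTorus (Sm z) × UnitAddTorus (Sm z) =>
      M0 α (Sm z) (p.2 + p.1) - Mc α b z (p.2 + p.1)) :=
    ((QC.M0_cont α (QC.Sm_prime z)).comp (by fun_prop)).sub hF1c
  have hF30 : ∀ p : UnitAddTorus (Sm z) × UnitAddTorus (Sm z), 0 ≤ M0 α (Sm z) (p.2 + p.1) - Mc α b z (p.2 + p.1) :=
    fun p => sub_nonneg.mpr (QC.Mc_le_M0 α b z _)
  filter_upwards [eventually_ge_atTop 256, ts_zero z _ (F2 α b z) (F2_cont α b z) η hη0,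
    hO z (by omega) _ _ hF3c hF30 η hη0, hA z (by omega) _ _ hF1c hF10 η hη0,
    hB z (by omega) _ _ hF1c hF10 η hη0,
    hO z (by omega) _ _ (F2_cont α b z) (F2_nonneg α b z) η hη0,
    hA z (by omega) _ _ (F2_cont α b z) (F2_nonneg α b z) η hη0,
    hB z (by omega) _ _ (F2_cont α b z) (F2_nonneg α b z) η hη0,
    hN _ _ (F2_cont α b z) (F2_nonneg α b z) η hη0,
    hF z (by omega) _ _ (F2_cont α b z) (F2_nonneg α b z) η hη0] with X hX256 gZ gO1 gA1 gB1 gO2 gA2 gB2 gN gF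
  intro δ hδ hδ0 hδX Rs J y hRs hSP hlam
  have d1 : δ ≤ 1 / 16 := hδ0.trans (min_le_left _ _)
  have d2 : δ ≤ δN := hδ0.trans ((min_le_right _ _).trans (min_le_left _ _))
  have d3 : δ ≤ δa := hδ0.trans ((min_le_right _ _).trans ((min_le_right _ _).trans (min_le_left _ _)))
  have d4 : δ ≤ δb := hδ0.trans ((min_le_right _ _).trans ((min_le_right _ _).trans (min_le_right _ _)))
  obtain ⟨H, hH⟩ : ∃ H : ℝ, H = δ ^ (-θ) := ⟨_, rfl⟩
  have hMH : M ≤ H := by rw [hH]; exact hδa2 δ hδ d3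
  have hH1 : 1 ≤ H := hM1.trans hMH
  have hX0 : 0 ≤ X := by linarith
  have hXl : Xl X ≤ X := Xl_le hX256
  have hXl0 : 0 ≤ Xl X := by unfold Xl; positivity
  have hpc := QC.pt_cont (Sm z)
  have hI2 : ∀ k, 0 ≤ ∫ q, F2 α b z (k, q) ∂(HP (Sm z)) := fun k => integral_nonneg fun q => F2_nonneg α b z _
  have hIS : ∀ k, ∫ q, F2 α b z (k, q) ∂(HP (Sm z)) ≤ S2 := fun k => by
    rw [hS2]; exact F2_int_le α b hz3 k
  have LW := LB.cont (WP_cont α z Rs y J δ)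
  have Lg : LB (gP A α B ε1 z Rs y J δ) := LB.bdd (B := 1) (gP_meas A α B ε1 z Rs y J δ) (fun s =>
    abs_le.mpr ⟨by linarith [gP_nonneg A α B ε1 z Rs y J δ s], gP_le A α B ε1 z Rs y J δ s⟩)
  have Lmc : LB (fun s => Mc α b z (pt (Sm z) s)) := LB.cont ((QC.Mc_cont α b z).comp hpc)
  -- the integral over the window
  have ewin : ∀ t : ℝ, δ ^ θ * (∫ u in (0:ℝ)..(δ ^ (-θ)), mz α z (t + u) * WP α z Rs y J δ (t + u)) =
      ∫ x in (0:ℝ)..1, mz α z (t + H * x) * WP α z Rs y J δ (t + H * x) := by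
    intro t
    rw [intervalIntegral.integral_comp_mul_left (fun u => mz α z (t + u) * WP α z Rs y J δ (t + u))
      (by linarith : H ≠ 0), smul_eq_mul, mul_zero, mul_one, hH, ← Real.rpow_neg hδ.le, neg_neg]
  simp only [ewin]
  have hfin := fixed_est (z := z) (α := α) (b := b) (X := X) (H := H) (e := e) (η := η) (C := C) (ζ := ζ) (δ := δ)
    (s := s) (r := r) (D := Cκ * (z:ℝ) ^ (-(1 / 4 : ℝ))) (S2 := S2) (εc := εc) (d := 2 * εc) (ρ := ρ)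
    (W := WP α z Rs y J δ) (g := gP A α B ε1 z Rs y J δ) (κ := KX α z y J δ)
    hX0 hXl0 hXl hH1 (WP_cont α z Rs y J δ) (WP_nonneg α z Rs y J δ) (gP_meas A α B ε1 z Rs y J δ)
    (gP_nonneg A α B ε1 z Rs y J δ) (gP_le A α B ε1 z Rs y J δ) hρ0 he0.le (by positivity) hS20 hη0.le hC0 hδ
    hζsr hs0 hr0 hr1 (KX_cont α z y J δ) (KX_even α z y J δ)
    (hK H (hM2.trans hMH) δ hδ d1 y J hSP.zy hSP.bJ hlam) ?_ ?_ ?_ ?_ ?_
  · refine hfin.trans ?_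
    rw [mul_comm ε X]
    refine mul_le_mul_of_nonneg_left ?_ hX0
    have q1 : e ≤ ρ / 800 := by rw [he]; linarith
    have q2 : η ≤ ρ / 4000 := by rw [hη]; linarith
    have q3 : εc = ρ / 8 := by rw [hεc, hρ]; ring
    have q4 : ε' = 4 * ρ := by rw [hρ]; ring
    linarith
  · -- the bad points
    intro u
    have g1 := gA1 Rs J y (by omega) hSP δ hδ.le (pt (Sm z) u) u
    have g2 := gB1 Rs J y (by omega) hSP δ hδ.le (pt (Sm z) u) u
    simp only [← pt_add] at g1 g2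
    have hI1 : ∫ q, Mc α b z (q + pt (Sm z) u) ∂(HP (Sm z)) ≤ 1 := by
      rw [int_translate (fun q => Mc α b z q)]
      exact Mc_int_le α b z
    have hφ : Continuous (fun t : ℝ => Mc α b z (pt (Sm z) (t + u))) := (QC.Mc_cont α b z).comp (hpc.comp (by fun_prop))
    have g3 := bad_both (B := B) (ε1 := ε1) hφ g1 g2
    refine g3.trans ?_
    have h8 : e * (∫ q, Mc α b z (q + pt (Sm z) u) ∂(HP (Sm z))) + η ≤ e + η := by
      have := mul_le_mul_of_nonneg_left hI1 he0.le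
      linarith
    have h9 := mul_le_mul_of_nonneg_left h8 hX0
    linarith
  · -- the cut-off
    intro u
    have g1 := gO1 Rs J y (by omega) hSP δ hδ.le (pt (Sm z) u) u
    simp only [← pt_add] at g1
    have e1 : ∫ q, (M0 α (Sm z) (q + pt (Sm z) u) - Mc α b z (q + pt (Sm z) u)) ∂(HP (Sm z)) =
        ∫ q, (M0 α (Sm z) q - Mc α b z q) ∂(HP (Sm z)) :=
      int_translate (fun q => M0 α (Sm z) q - Mc α b z q) (pt (Sm z) u)
    rw [e1] at g1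
    have h5 := (abs_le.mp g1).2
    set I3 := ∫ q, (M0 α (Sm z) q - Mc α b z q) ∂(HP (Sm z)) with hI3
    have hI30 : 0 ≤ I3 := integral_nonneg fun q => sub_nonneg.mpr (QC.Mc_le_M0 α b z _)
    have h6 : ∫ t in Xl X..X, (mz α z (t + u) - Mc α b z (pt (Sm z) (t + u))) * WP α z Rs y J δ (t + u) ≤
        X * I3 + X * (e * I3 + η) := by
      unfold mz
      linarith
    refine h6.trans ?_
    have h7 : I3 + (e * I3 + η) ≤ 2 * εc + η := by
      have : e * I3 ≤ 1 * εc := mul_le_mul he1 hcut hI30 zero_le_one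
      linarith
    have h8 := mul_le_mul_of_nonneg_left h7 hX0
    linarith
  · -- the two-point function
    intro u u' huu
    obtain ⟨k, hk⟩ : ∃ k : UnitAddTorus (Sm z) × UnitAddTorus (Sm z), k = (pt (Sm z) u, pt (Sm z) u') := ⟨_, rfl⟩
    obtain ⟨I, hI⟩ : ∃ I : ℝ, I = ∫ q, F2 α b z (k, q) ∂(HP (Sm z)) := ⟨_, rfl⟩
    have I0 : 0 ≤ I := by rw [hI]; exact hI2 k
    have IS : I ≤ S2 := by rw [hI]; exact hIS k
    have z0 := gZ k
    rw [← hI, hk] at z0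
    simp only [F2_pt] at z0
    have hφ : Continuous (fun t : ℝ => Mc α b z (pt (Sm z) (t + u)) * Mc α b z (pt (Sm z) (t + u'))) :=
      ((QC.Mc_cont α b z).comp (hpc.comp (by fun_prop))).mul ((QC.Mc_cont α b z).comp (hpc.comp (by fun_prop)))
    have hJ0 : 0 ≤ ∫ t in Xl X..X, Mc α b z (pt (Sm z) (t + u)) * Mc α b z (pt (Sm z) (t + u')) :=
      intervalIntegral.integral_nonneg hXl fun t _ => mul_nonneg (QC.Mc_nonneg _ _ _ _) (QC.Mc_nonneg _ _ _ _)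
    by_cases hnear : |u - u'| ≤ 1
    · have n1 := gN Rs J y (by omega) hSP δ hδ d2 hδX k u u' huu hnear
      rw [← hI, hk] at n1
      simp only [F2_pt] at n1
      rw [← hζ] at n1
      have n2 := near_bound (N := C * (max |u - u'| δ) ^ (-ζ)) hXl Lmc LW Lg (fun x => QC.Mc_nonneg α b z _)
        (WP_nonneg α z Rs y J δ) (gP_nonneg A α B ε1 z Rs y J δ) z0 n1
      refine n2.trans ?_
      have hkk : kk S2 η C ζ δ (KX α z y J δ) (u - u') =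
          (S2 + η) * (C * (max |u - u'| δ) ^ (-ζ) + 1) + 17 * η := by
        unfold kk; rw [if_pos hnear]
      rw [hkk]
      have h9 : 0 ≤ (max |u - u'| δ) ^ (-ζ) :=
        Real.rpow_nonneg (hδ.le.trans (le_max_right _ _)) _
      have h10 : X * ((I + η) * (C * (max |u - u'| δ) ^ (-ζ) + 1)) ≤
          X * ((S2 + η) * (C * (max |u - u'| δ) ^ (-ζ) + 1)) := by gcongr
      have h11 : 0 ≤ 7 * e * ∫ t in Xl X..X, Mc α b z (pt (Sm z) (t + u)) * Mc α b z (pt (Sm z) (t + u')) :=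
        mul_nonneg (by positivity) hJ0
      have h12 : 0 ≤ X * (17 * η) := by positivity
      rw [mul_add X]
      linarith
    · have o1 := gO2 Rs J y (by omega) hSP δ hδ.le k u
      have o2 := gO2 Rs J y (by omega) hSP δ hδ.le k u'
      have a1 := gA2 Rs J y (by omega) hSP δ hδ.le k u
      have a2 := gA2 Rs J y (by omega) hSP δ hδ.le k u'
      have b1 := gB2 Rs J y (by omega) hSP δ hδ.le k u
      have b2 := gB2 Rs J y (by omega) hSP δ hδ.le k u'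
      have f1 := gF Rs J y (by omega) hSP δ hδ.le k u u'
      rw [← hI, hk] at o1 o2 a1 a2 b1 b2 f1
      simp only [F2_pt] at o1 o2 a1 a2 b1 b2 f1
      have l1 := low_bound hφ o1 (bad_both (B := B) (ε1 := ε1) hφ a1 b1)
      have l2 := low_bound hφ o2 (bad_both (B := B) (ε1 := ε1) hφ a2 b2)
      have n2 := far_bound hXl hX0 I0 IS hη0.le he0.le he1 Lmc LW Lg (fun x => QC.Mc_nonneg α b z _)
        (WP_nonneg α z Rs y J δ) (gP_nonneg A α B ε1 z Rs y J δ) (gP_le A α B ε1 z Rs y J δ) z0 l1 l2 f1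
      have hkk : kk S2 η C ζ δ (KX α z y J δ) (u - u') =
          (2 * S2 + 2 * η) * max (KX α z y J δ (u - u') - 1) 0 + 17 * η := by
        unfold kk; rw [if_neg hnear]
      rw [hkk]
      exact n2
  · -- the average of the density
    intro t
    have h5 := hcav H (hM3.trans hMH) t
    have h6 := M0_sub_int α b z
    have h7 := Mc_int_le α b z
    rw [abs_le] at h5 ⊢
    constructor <;> linarith [h5.1, h5.2]
  · -- the final numerical estimate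
    have hHi : 1 / H = δ ^ θ := by
      rw [hH, Real.rpow_neg hδ.le, one_div, inv_inv]
    have hδ1 : δ ≤ 1 := by linarith
    have hδs : 1 ≤ δ ^ (-s) := Real.one_le_rpow_of_pos_of_le_one_of_nonpos hδ hδ1 (by linarith)
    have hnearb : 2 / H * ((S2 + η) * (C * δ ^ (-s) / (1 - r) + 1)) ≤ ρ ^ 2 / 4 := by
      refine le_trans ?_ (hδb2 δ hδ d4)
      have e5 : δ ^ (θ - s) = δ ^ θ * δ ^ (-s) := by rw [← Real.rpow_add hδ]; ring_nf
      have e6 : 2 / H = 2 * δ ^ θ := by rw [← hHi]; ring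
      rw [e5, e6, hQ]
      have hθp : 0 ≤ δ ^ θ := (Real.rpow_pos_of_pos hδ _).le
      have h8 : C * δ ^ (-s) / (1 - r) + 1 ≤ (C / (1 - r) + 1) * δ ^ (-s) := by
        have : C * δ ^ (-s) / (1 - r) = C / (1 - r) * δ ^ (-s) := by ring
        rw [this]; linarith
      calc 2 * δ ^ θ * ((S2 + η) * (C * δ ^ (-s) / (1 - r) + 1))
          ≤ 2 * δ ^ θ * ((S2 + η) * ((C / (1 - r) + 1) * δ ^ (-s))) := by gcongr
        _ = 2 * ((S2 + η) * (C / (1 - r) + 1)) * (δ ^ θ * δ ^ (-s)) := by ring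
    have hfar : 2 * ((2 * S2 + 2 * η) * (Cκ * (z:ℝ) ^ (-(1 / 4 : ℝ)))) ≤ ρ ^ 2 / 4 := by
      refine le_trans ?_ hzL
      rw [← hS2]
      have : 0 ≤ (z:ℝ) ^ (-(1 / 4 : ℝ)) := by positivity
      gcongr
      linarith
    have h9 : (1 + 2 * εc) ^ 2 ≤ 4 := by
      rw [hεc]; nlinarith
    have h10 : 7 * e * (1 + 2 * εc) ^ 2 ≤ 7 * e * 4 := by gcongr
    have h11 : 7 * e * 4 = 28 * (ρ ^ 2 / 200) := by rw [he]; ring
    have h12 : 34 * η = 34 * (ρ ^ 2 / 1000) := by rw [hη]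
    have h13 : 0 < ρ ^ 2 := by positivity
    linarith

end Pool.Agent.V5helper72.HM
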