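import Pool.Agent.V5helper51.HM.Stm2

set_option autoImplicit false

/-!
# Project HM, wave 2: the masses of the windows of length one are not very small
-/

namespace Pool.Agent.V5helper72.HM

open MeasureTheory Filter Topology
open Pool.Agent.N748.GC Pool.Agent.V5helper51.HM

theorem PO_prob : IsProbabilityMeasure PO := by
  unfold PO; infer_instance

/-- the normalised weight is continuous -/
theorem Zn_contW {α δ : ℝ} (hα : 0 < α) (hδ : δ ≤ 1 / 16) : Continuous (Zn α δ) := by
  unfold Zn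
  refine continuous_const.mul ?_
  refine Continuous.rpow_const ?_ (fun _ => Or.inr (by positivity))
  refine Continuous.norm ?_
  rw [continuous_iff_continuousAt]
  intro u
  have hne : (1 / 2 + (δ:ℂ) + u * Complex.I) ≠ 1 := by
    intro h
    have h1 := congrArg Complex.re h
    simp at h1
    linarith
  have h2 : ContinuousAt riemannZeta (1 / 2 + (δ:ℂ) + u * Complex.I) :=
    (differentiableAt_riemannZeta hne).continuousAt
  exact ContinuousAt.comp (f := fun u : ℝ => (1 / 2 + (δ:ℂ) + u * Complex.I)) h2 (by fun_prop)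

/-- the cut-off function: `1` up to `k`, `0` from `2k` on -/
noncomputable def ctG (k x : ℝ) : ℝ := max 0 (min 1 (2 - x / k))

theorem ctG_cont (k : ℝ) : Continuous (ctG k) := by
  unfold ctG
  fun_prop

theorem ctG_nonneg (k x : ℝ) : 0 ≤ ctG k x := le_max_left _ _

theorem ctG_le (k x : ℝ) : ctG k x ≤ 1 := max_le zero_le_one (min_le_left _ _)

theorem ctG_one {k x : ℝ} (hk : 0 < k) (hx : x ≤ k) : 1 ≤ ctG k x := by
  unfold ctG
  have : x / k ≤ 1 := (div_le_one hk).2 hx
  rw [min_eq_left (by linarith)]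
  exact le_max_right _ _

theorem ctG_zero {k x : ℝ} (hk : 0 < k) (hx : 2 * k ≤ x) : ctG k x = 0 := by
  unfold ctG
  have : 2 ≤ x / k := by rw [le_div_iff₀ hk]; exact hx
  refine max_eq_left ?_
  exact (min_le_right _ _).trans (by linarith)

theorem t_W0 (hP : S_POS) (hD : S_DIS) (hL : S_LAM) : S_W0 := by
  intro α ha0 ha1 δ hδ ε hε
  have := PO_prob
  obtain ⟨Λ, hΛ⟩ := hL α ha0 ha1
  have hpos := hP α ha0 ha1 Λ hΛ
  obtain ⟨hm, -, -, -⟩ := hΛ (fun _ => 1) continuous_const
  have hlim : Tendsto (fun n : ℕ => ∫ w, ctG (1 / ((n:ℝ) + 1)) (Λ (fun _ => 1) w) ∂PO) atTop (𝓝 0) := by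
    have h := tendsto_integral_of_dominated_convergence
      (F := fun (n : ℕ) w => ctG (1 / ((n:ℝ) + 1)) (Λ (fun _ => 1) w)) (f := fun _ => (0:ℝ)) (μ := PO)
      (fun _ => (1:ℝ)) (fun n => ((ctG_cont _).measurable.comp hm).aestronglyMeasurable)
      (integrable_const _) (fun n => Eventually.of_forall fun w => by
        rw [Real.norm_eq_abs, abs_of_nonneg (ctG_nonneg _ _)]; exact ctG_le _ _) ?_
    · simpa using h
    · filter_upwards [hpos] with w hw
      have h0 : Tendsto (fun n : ℕ => 2 * (1 / ((n:ℝ) + 1))) atTop (𝓝 0) := by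
        simpa using (tendsto_one_div_add_atTop_nhds_zero_nat (𝕜 := ℝ)).const_mul 2
      refine tendsto_const_nhds.congr' ?_
      filter_upwards [h0.eventually (gt_mem_nhds hw)] with n hn
      exact (ctG_zero (by positivity) hn.le).symm
  obtain ⟨n, hn⟩ := (hlim.eventually (gt_mem_nhds hε)).exists
  set k : ℝ := 1 / ((n:ℝ) + 1) with hk
  have hk0 : 0 < k := by positivity
  refine ⟨k, hk0, ?_⟩
  set G : BoundedContinuousFunction (Fin 1 → ℝ) ℝ :=
    BoundedContinuousFunction.ofNormedAddCommGroup (fun y : Fin 1 → ℝ => ctG k (y 0))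
      ((ctG_cont k).comp (continuous_apply 0)) 1 (fun y => by
        rw [Real.norm_eq_abs, abs_of_nonneg (ctG_nonneg _ _)]; exact ctG_le _ _) with hG
  have hd := hD α ha0 ha1 Λ hΛ δ hδ 1 (fun _ _ => 1) (fun _ => continuous_const) G
  have hd' : ∀ᶠ T : ℝ in atTop,
      (1 / T) * (∫ t in (0:ℝ)..T, ctG k (∫ x in (0:ℝ)..1, Zn α (δ T) (t + x))) < ε := by
    have h3 : (∫ w, G (fun j : Fin 1 => Λ ((fun _ _ => 1 : Fin 1 → ℝ → ℝ) j) w) ∂PO) < ε := by
      simpa [hG] using hn
    have h2 := hd.eventually (gt_mem_nhds h3)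
    simpa [hG] using h2
  filter_upwards [hd', eventually_gt_atTop 0, hδ.t0.eventually (gt_mem_nhds (show (0:ℝ) < 1 / 16 by norm_num))]
    with T h1 hT0 hT1
  have hZ : Continuous (Zn α (δ T)) := Zn_contW ha0 hT1.le
  set φ : ℝ → ℝ := fun t => ∫ x in (0:ℝ)..1, Zn α (δ T) (t + x) with hφ
  have hφc : Continuous φ := by
    refine intervalIntegral.continuous_parametric_intervalIntegral_of_continuous' ?_ _ _
    fun_prop
  have hc : Continuous fun t => ctG k (φ t) := (ctG_cont k).comp hφc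
  have hcl : MeasurableSet {t : ℝ | φ t ≤ k} := (isClosed_le hφc continuous_const).measurableSet
  have hint : Integrable (fun t => ctG k (φ t)) (volume.restrict (Set.Icc 0 T)) :=
    (hc.continuousOn.integrableOn_compact isCompact_Icc)
  have hmk := mul_meas_ge_le_integral_of_nonneg (μ := volume.restrict (Set.Icc 0 T))
    (f := fun t => ctG k (φ t)) (Eventually.of_forall fun t => ctG_nonneg _ _) hint 1
  rw [one_mul] at hmk
  have e1 : ∫ t in (0:ℝ)..T, ctG k (φ t) = ∫ t in Set.Icc 0 T, ctG k (φ t) := by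
    rw [intervalIntegral.integral_of_le hT0.le, integral_Icc_eq_integral_Ioc]
  have e2 : (∫ t in (0:ℝ)..T, ctG k (φ t)) ≤ ε * T := by
    have := h1
    rw [one_div, ← div_eq_inv_mul, div_lt_iff₀ hT0] at this
    exact this.le
  have hsub : {t : ℝ | φ t ≤ k} ⊆ {t : ℝ | 1 ≤ ctG k (φ t)} := fun t ht => ctG_one hk0 ht
  have e3 : volume ({t : ℝ | φ t ≤ k} ∩ Set.Icc 0 T) ≤
      (volume.restrict (Set.Icc 0 T)) {t : ℝ | 1 ≤ ctG k (φ t)} := by
    rw [← Measure.restrict_apply hcl]
    exact measure_mono hsub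
  refine e3.trans ?_
  rw [← ofReal_measureReal (measure_ne_top _ _)]
  exact ENNReal.ofReal_le_ofReal (hmk.trans (e1 ▸ e2))

end Pool.Agent.V5helper72.HM
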