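import Pool.Agent.N748.GC.ASMcore

/-!
# Second moment argument on windows of arbitrary length: the abstract part of AVG
-/

set_option autoImplicit false

namespace Pool.Agent.V5helper72.HM

open Filter MeasureTheory Topology
open Pool.Agent.N748.GC.ASM

theorem coreH {T1 T2 H : ℝ} (hT : T1 ≤ T2) (hH : 0 ≤ H) {m mc W g : ℝ → ℝ} {B : ℝ × ℝ → ℝ}
    {a b c e d ρ : ℝ}
    (hm : Continuous m) (hmc : Continuous mc) (h0 : ∀ x, 0 ≤ mc x) (hle : ∀ x, mc x ≤ m x)
    (hW : Continuous W) (hW0 : ∀ x, 0 ≤ W x) (hg : Measurable g) (hg0 : ∀ x, 0 ≤ g x)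
    (hg1 : ∀ x, g x ≤ 1) (hρ : 0 < ρ) (he : 0 ≤ e) (hd : 0 ≤ d)
    (h1 : ∀ u, ∫ t in T1..T2, mc (t + u) * (W (t + u) * (1 - g (t + u))) ≤ a)
    (h2 : ∀ u, ∫ t in T1..T2, (m (t + u) - mc (t + u)) * W (t + u) ≤ b)
    (hB : Integrable B (m1.prod m1)) (hBc : ∫ p, B p ∂(m1.prod m1) ≤ c)
    (h3 : ∀ x y, x ≠ y →
      ∫ t in T1..T2, mc (t + H * x) * mc (t + H * y) *
        ((W (t + H * x) * g (t + H * x) - 1) * (W (t + H * y) * g (t + H * y) - 1)) ≤
        B (x, y) + e * ∫ t in T1..T2, mc (t + H * x) * mc (t + H * y))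
    (h4 : ∀ t, |(∫ x in (0:ℝ)..1, mc (t + H * x)) - 1| ≤ d) :
    ∫ t in T1..T2, |(∫ x in (0:ℝ)..1, m (t + H * x) * W (t + H * x)) - 1| ≤
      a + b + ((c + e * ((T2 - T1) * (1 + d) ^ 2)) / ρ + ρ * (T2 - T1)) / 2 + d * (T2 - T1) := by
  set μt : Measure ℝ := volume.restrict (Set.Ioc T1 T2) with hμt
  have : IsFiniteMeasure μt := by
    rw [hμt, isFiniteMeasure_restrict]; simp
  have hmt : ∀ᵐ t ∂μt, t ∈ Set.Ioc T1 T2 := ae_restrict_mem measurableSet_Ioc
  have hμu : μt.real Set.univ = T2 - T1 := by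
    rw [hμt]; simp [Measure.real, hT]
  have hconst : ∀ c : ℝ, ∫ _, c ∂μt = c * (T2 - T1) := by
    intro c
    rw [integral_const, smul_eq_mul, hμu, mul_comm]
  -- locally bounded functions
  have Lm := LB.cont hm
  have Lmc := LB.cont hmc
  have LW := LB.cont hW
  have Lg : LB g := LB.bdd (B := 1) hg (fun s => abs_le.mpr ⟨by linarith [hg0 s], hg1 s⟩)
  set u1 : ℝ → ℝ := fun s => mc s * (W s * (1 - g s)) with hu1
  set u2 : ℝ → ℝ := fun s => (m s - mc s) * W s with hu2
  set u3 : ℝ → ℝ := fun s => mc s * (W s * g s - 1) with hu3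
  set u4 : ℝ → ℝ := fun s => m s * W s with hu4
  have L1 : LB u1 := Lmc.mul (LW.mul ((LB.const 1).sub Lg))
  have L2 : LB u2 := (Lm.sub Lmc).mul LW
  have L3 : LB u3 := Lmc.mul ((LW.mul Lg).sub (LB.const 1))
  have L4 : LB u4 := Lm.mul LW
  -- bound of the argument
  set R : ℝ := |T1| + |T2| + H with hR
  have hRb : ∀ t ∈ Set.Ioc T1 T2, ∀ x ∈ Set.Ioc (0:ℝ) 1, |t + H * x| ≤ R := by
    intro t ht x hx
    have hx1 : H * x ≤ H := by nlinarith [hx.2]
    have hx0 : 0 ≤ H * x := mul_nonneg hH hx.1.le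
    rw [abs_le]
    constructor
    · have := neg_abs_le T1
      have := abs_nonneg T2
      linarith [ht.1]
    · have := le_abs_self T2
      have := abs_nonneg T1
      linarith [ht.2]
  -- measurability of compositions
  have hcm : ∀ u : ℝ → ℝ, Measurable u → Measurable (fun p : ℝ × ℝ => u (p.1 + H * p.2)) := fun u hu =>
    hu.comp (measurable_fst.add (measurable_snd.const_mul H))
  -- integrability on the product
  have hprod' : ∀ u : ℝ → ℝ, LB u → Integrable (fun p : ℝ × ℝ => u (p.1 + H * p.2)) (μt.prod m1) := by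
    intro u hu
    obtain ⟨Bu, hBu0, hBu⟩ := hu.b R
    refine intprod hmt m1_mem (B := Bu) (hcm u hu.m) ?_
    intro t x ht hx
    exact hBu _ (hRb t ht x hx)
  have hsec' : ∀ u : ℝ → ℝ, LB u → ∀ t, Integrable (fun x => u (t + H * x)) m1 := by
    intro u hu t
    have : LB (fun x => u (t + H * x)) := by
      refine ⟨hu.m.comp ((measurable_id.const_mul H).const_add t), fun R => ?_⟩
      obtain ⟨B1, h01, h1⟩ := hu.b (|t| + H * |R|)
      refine ⟨B1, h01, fun s hs => h1 _ ?_⟩
      refine (abs_add_le _ _).trans ?_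
      rw [abs_mul, abs_of_nonneg hH]
      have := hs.trans (le_abs_self R)
      gcongr
    exact (intervalIntegrable_iff_integrableOn_Ioc_of_le zero_le_one).mp (this.ii 0 1)
  -- the main term
  set A : ℝ → ℝ := fun t => ∫ x, u3 (t + H * x) ∂m1 with hA
  have hAint : Integrable A μt := (hprod' u3 L3).integral_prod_left
  obtain ⟨B3, hB30, hB3⟩ := L3.b R
  have hAb : ∀ᵐ t ∂μt, |A t| ≤ B3 := by
    filter_upwards [hmt] with t ht
    have : ‖∫ x, u3 (t + H * x) ∂m1‖ ≤ B3 * m1.real Set.univ := by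
      refine norm_integral_le_of_norm_le_const ?_
      filter_upwards [m1_mem] with x hx
      exact hB3 _ (hRb t ht x hx)
    have e : m1.real Set.univ = 1 := by simp [m1]
    rw [e, mul_one, Real.norm_eq_abs] at this
    exact this
  have hA2 : Integrable (fun t => A t ^ 2) μt := by
    refine Integrable.of_bound (C := B3 ^ 2) ?_ ?_
    · exact (hAint.1.aemeasurable.pow_const 2).aestronglyMeasurable
    · filter_upwards [hAb] with t ht
      rw [Real.norm_eq_abs, abs_pow]
      have := abs_nonneg (A t)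
      gcongr
  -- mean values of the cut density
  set Mt : ℝ → ℝ := fun t => ∫ x, mc (t + H * x) ∂m1 with hMt
  have hMtint : Integrable Mt μt := (hprod' mc Lmc).integral_prod_left
  have h4' : ∀ t, |Mt t - 1| ≤ d := by
    intro t
    have := h4 t
    rw [intervalIntegral.integral_of_le zero_le_one] at this
    exact this
  -- Fubini for squares
  have hm2 : ∀ᵐ p ∂(m1.prod m1), p.1 ∈ Set.Ioc (0:ℝ) 1 ∧ p.2 ∈ Set.Ioc (0:ℝ) 1 := by
    have k1 : ∀ᵐ p ∂(m1.prod m1), p.1 ∈ Set.Ioc (0:ℝ) 1 :=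
      Measure.quasiMeasurePreserving_fst.ae m1_mem
    have k2 : ∀ᵐ p ∂(m1.prod m1), p.2 ∈ Set.Ioc (0:ℝ) 1 :=
      Measure.quasiMeasurePreserving_snd.ae m1_mem
    filter_upwards [k1, k2] with p h1 h2 using ⟨h1, h2⟩
  have hfub : ∀ u : ℝ → ℝ, LB u →
      Integrable (fun q : ℝ × (ℝ × ℝ) => u (q.1 + H * q.2.1) * u (q.1 + H * q.2.2)) (μt.prod (m1.prod m1)) ∧
      ∫ t, (∫ x, u (t + H * x) ∂m1) ^ 2 ∂μt =
        ∫ p, ∫ t, u (t + H * p.1) * u (t + H * p.2) ∂μt ∂(m1.prod m1) := by
    intro u hu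
    obtain ⟨Bu, hBu0, hBu⟩ := hu.b R
    have hGm : Measurable (fun q : ℝ × (ℝ × ℝ) => u (q.1 + H * q.2.1) * u (q.1 + H * q.2.2)) := by
      have a1 : Measurable (fun q : ℝ × (ℝ × ℝ) => u (q.1 + H * q.2.1)) :=
        hu.m.comp (measurable_fst.add ((measurable_fst.comp measurable_snd).const_mul H))
      have a2 : Measurable (fun q : ℝ × (ℝ × ℝ) => u (q.1 + H * q.2.2)) :=
        hu.m.comp (measurable_fst.add ((measurable_snd.comp measurable_snd).const_mul H))
      exact a1.mul a2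
    have hGi : Integrable (fun q : ℝ × (ℝ × ℝ) => u (q.1 + H * q.2.1) * u (q.1 + H * q.2.2))
        (μt.prod (m1.prod m1)) := by
      refine intprod hmt hm2 (B := Bu * Bu) hGm ?_
      intro t p ht hp
      simp only [abs_mul]
      exact mul_le_mul (hBu _ (hRb t ht _ hp.1)) (hBu _ (hRb t ht _ hp.2)) (abs_nonneg _) hBu0
    refine ⟨hGi, ?_⟩
    have e1 : ∀ t, (∫ x, u (t + H * x) ∂m1) ^ 2 =
        ∫ p, u (t + H * p.1) * u (t + H * p.2) ∂(m1.prod m1) := by
      intro t
      rw [integral_prod_mul (fun x => u (t + H * x)) (fun x => u (t + H * x)), sq]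
    simp only [e1]
    exact integral_integral_swap (f := fun t (p : ℝ × ℝ) => u (t + H * p.1) * u (t + H * p.2)) hGi
  obtain ⟨hGi3, hsq3⟩ := hfub u3 L3
  obtain ⟨hGic, hsqc⟩ := hfub mc Lmc
  have hMsq : ∫ t, Mt t ^ 2 ∂μt ≤ (T2 - T1) * (1 + d) ^ 2 := by
    calc ∫ t, Mt t ^ 2 ∂μt ≤ ∫ _, (1 + d) ^ 2 ∂μt := by
          refine integral_mono_of_nonneg (Eventually.of_forall fun t => by positivity) (integrable_const _)
            (Eventually.of_forall fun t => ?_)
          have := abs_le.mp (h4' t)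
          have hM0 : 0 ≤ Mt t := integral_nonneg fun x => h0 _
          show Mt t ^ 2 ≤ (1 + d) ^ 2
          gcongr
          linarith
      _ = (T2 - T1) * (1 + d) ^ 2 := by rw [hconst]; ring
  have hsq : ∫ t, A t ^ 2 ∂μt ≤ c + e * ((T2 - T1) * (1 + d) ^ 2) := by
    have e2 : ∫ t, A t ^ 2 ∂μt = ∫ p, ∫ t, u3 (t + H * p.1) * u3 (t + H * p.2) ∂μt ∂(m1.prod m1) := hsq3
    rw [e2]
    have hJi : Integrable (fun p : ℝ × ℝ => ∫ t, mc (t + H * p.1) * mc (t + H * p.2) ∂μt) (m1.prod m1) :=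
      hGic.integral_prod_right
    calc ∫ p, ∫ t, u3 (t + H * p.1) * u3 (t + H * p.2) ∂μt ∂(m1.prod m1)
        ≤ ∫ p, (B p + e * ∫ t, mc (t + H * p.1) * mc (t + H * p.2) ∂μt) ∂(m1.prod m1) := by
          refine integral_mono_ae hGi3.integral_prod_right (hB.add (hJi.const_mul e)) ?_
          filter_upwards [diag_null] with p hne
          have k3 := h3 p.1 p.2 hne
          rw [intervalIntegral.integral_of_le hT, intervalIntegral.integral_of_le hT] at k3
          refine le_trans (le_of_eq ?_) k3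
          refine integral_congr_ae (Eventually.of_forall fun t => ?_)
          simp only [hu3]
          ring
      _ = (∫ p, B p ∂(m1.prod m1)) + e * ∫ p, ∫ t, mc (t + H * p.1) * mc (t + H * p.2) ∂μt ∂(m1.prod m1) := by
          rw [integral_add hB (hJi.const_mul e), integral_const_mul]
      _ ≤ c + e * ((T2 - T1) * (1 + d) ^ 2) := by
          rw [← hsqc]
          exact add_le_add hBc (mul_le_mul_of_nonneg_left hMsq he)
  have hAle : ∫ t, |A t| ∂μt ≤ ((c + e * ((T2 - T1) * (1 + d) ^ 2)) / ρ + ρ * (T2 - T1)) / 2 := by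
    have k : ∫ t, |A t| ∂μt ≤ ∫ t, (A t ^ 2 / ρ + ρ) / 2 ∂μt := by
      refine integral_mono_ae hAint.abs (((hA2.div_const ρ).add (integrable_const ρ)).div_const 2) ?_
      filter_upwards with t
      have : 0 ≤ (|A t| - ρ) ^ 2 / ρ := by positivity
      have e : (|A t| - ρ) ^ 2 / ρ = A t ^ 2 / ρ - 2 * |A t| + ρ := by
        field_simp
        rw [← sq_abs (A t)]
        ring
      show |A t| ≤ (A t ^ 2 / ρ + ρ) / 2
      linarith
    refine k.trans ?_
    rw [integral_div, integral_add (hA2.div_const ρ) (integrable_const ρ), integral_div, hconst]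
    gcongr
  -- the error terms
  have hE : ∫ t, ∫ x, (u1 (t + H * x) + u2 (t + H * x)) ∂m1 ∂μt ≤ a + b := by
    have hi := hprod' _ (L1.add L2)
    have e := integral_integral_swap (f := fun t x => u1 (t + H * x) + u2 (t + H * x)) hi
    rw [e]
    calc ∫ x, ∫ t, (u1 (t + H * x) + u2 (t + H * x)) ∂μt ∂m1 ≤ ∫ x, (a + b) ∂m1 := by
          refine integral_mono_ae hi.integral_prod_right (integrable_const _) ?_
          filter_upwards with x
          have k1 := h1 (H * x)
          have k2 := h2 (H * x)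
          have i1 := (L1.shift (H * x)).ii T1 T2
          have i2 := (L2.shift (H * x)).ii T1 T2
          have e3 : ∫ t, (u1 (t + H * x) + u2 (t + H * x)) ∂μt
              = (∫ t in T1..T2, u1 (t + H * x)) + ∫ t in T1..T2, u2 (t + H * x) := by
            rw [← intervalIntegral.integral_add i1 i2, intervalIntegral.integral_of_le hT]
          show ∫ t, (u1 (t + H * x) + u2 (t + H * x)) ∂μt ≤ a + b
          rw [e3]
          exact add_le_add k1 k2
      _ = a + b := m1_int _
  -- conclusion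
  rw [intervalIntegral.integral_of_le hT]
  have hin : ∀ t, |(∫ x in (0:ℝ)..1, m (t + H * x) * W (t + H * x)) - 1| ≤
      |A t| + (∫ x, (u1 (t + H * x) + u2 (t + H * x)) ∂m1) + d := by
    intro t
    rw [intervalIntegral.integral_of_le zero_le_one]
    have i3 := hsec' u3 L3 t
    have i1 := hsec' u1 L1 t
    have i2 := hsec' u2 L2 t
    have i12 := hsec' _ (L1.add L2) t
    have ic := hsec' mc Lmc t
    have e : ∫ x in Set.Ioc (0:ℝ) 1, m (t + H * x) * W (t + H * x)
        = A t + (∫ x, (u1 (t + H * x) + u2 (t + H * x)) ∂m1) + Mt t := by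
      have i312 : Integrable (fun x => u3 (t + H * x) + (u1 (t + H * x) + u2 (t + H * x))) m1 := i3.add i12
      simp only [hA, hMt]
      rw [← integral_add i3 i12, ← integral_add i312 ic]
      refine integral_congr_ae (Eventually.of_forall fun x => ?_)
      simp only [hu1, hu2, hu3]
      ring
    rw [e]
    have n12 : 0 ≤ ∫ x, (u1 (t + H * x) + u2 (t + H * x)) ∂m1 := by
      refine integral_nonneg fun x => ?_
      have a1 := h0 (t + H * x)
      have a2 := hW0 (t + H * x)
      have a3 := hg1 (t + H * x)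
      have a4 := hle (t + H * x)
      simp only [hu1, hu2]
      have : 0 ≤ mc (t + H * x) * (W (t + H * x) * (1 - g (t + H * x))) :=
        mul_nonneg a1 (mul_nonneg a2 (by linarith))
      have : 0 ≤ (m (t + H * x) - mc (t + H * x)) * W (t + H * x) := mul_nonneg (by linarith) a2
      show 0 ≤ mc (t + H * x) * (W (t + H * x) * (1 - g (t + H * x))) + (m (t + H * x) - mc (t + H * x)) * W (t + H * x)
      linarith
    have := h4' t
    calc |A t + (∫ x, (u1 (t + H * x) + u2 (t + H * x)) ∂m1) + Mt t - 1|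
        = |A t + (∫ x, (u1 (t + H * x) + u2 (t + H * x)) ∂m1) + (Mt t - 1)| := by ring_nf
      _ ≤ |A t| + |∫ x, (u1 (t + H * x) + u2 (t + H * x)) ∂m1| + |Mt t - 1| := abs_add_three _ _ _
      _ ≤ |A t| + (∫ x, (u1 (t + H * x) + u2 (t + H * x)) ∂m1) + d := by
          rw [abs_of_nonneg n12]
          gcongr
  have hJ : Integrable (fun t => ∫ x, (u1 (t + H * x) + u2 (t + H * x)) ∂m1) μt :=
    (hprod' _ (L1.add L2)).integral_prod_left
  have hI4 : Integrable (fun t => |(∫ x in (0:ℝ)..1, m (t + H * x) * W (t + H * x)) - 1|) μt := by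
    have := (hprod' u4 L4).integral_prod_left
    simp only [intervalIntegral.integral_of_le zero_le_one]
    exact (this.sub (integrable_const 1)).abs
  calc ∫ t in Set.Ioc T1 T2, |(∫ x in (0:ℝ)..1, m (t + H * x) * W (t + H * x)) - 1|
      ≤ ∫ t, (|A t| + (∫ x, (u1 (t + H * x) + u2 (t + H * x)) ∂m1) + d) ∂μt :=
        integral_mono_ae hI4 ((hAint.abs.add hJ).add (integrable_const d)) (Eventually.of_forall hin)
    _ = (∫ t, |A t| ∂μt) + (∫ t, ∫ x, (u1 (t + H * x) + u2 (t + H * x)) ∂m1 ∂μt) + d * (T2 - T1) := by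
        have hs : Integrable (fun t => |A t| + ∫ x, (u1 (t + H * x) + u2 (t + H * x)) ∂m1) μt := hAint.abs.add hJ
        rw [integral_add hs (integrable_const d), hconst]
        congr 1
        exact integral_add hAint.abs hJ
    _ ≤ ((c + e * ((T2 - T1) * (1 + d) ^ 2)) / ρ + ρ * (T2 - T1)) / 2 + (a + b) + d * (T2 - T1) :=
        add_le_add (add_le_add hAle hE) le_rfl
    _ = a + b + ((c + e * ((T2 - T1) * (1 + d) ^ 2)) / ρ + ρ * (T2 - T1)) / 2 + d * (T2 - T1) := by ring

/-- averages of functions of the difference -/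
theorem avg_diff {H : ℝ} (hH : 0 < H) {k : ℝ → ℝ} (hk : Measurable k) (hk0 : ∀ h, 0 ≤ k h) {M : ℝ}
    (hkM : ∀ h, |h| ≤ H → k h ≤ M) :
    Integrable (fun p : ℝ × ℝ => k (H * (p.1 - p.2))) (m1.prod m1) ∧
      ∫ p, k (H * (p.1 - p.2)) ∂(m1.prod m1) ≤ (1 / H) * ∫ h in (-H)..H, k h := by
  have hmm : Measurable (fun p : ℝ × ℝ => k (H * (p.1 - p.2))) :=
    hk.comp ((measurable_fst.sub measurable_snd).const_mul H)
  have hab : ∀ x ∈ Set.Ioc (0:ℝ) 1, ∀ y ∈ Set.Ioc (0:ℝ) 1, |H * (x - y)| ≤ H := by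
    intro x hx y hy
    rw [abs_mul, abs_of_pos hH]
    have : |x - y| ≤ 1 := abs_le.mpr ⟨by linarith [hx.1, hy.2], by linarith [hx.2, hy.1]⟩
    nlinarith
  have hint : Integrable (fun p : ℝ × ℝ => k (H * (p.1 - p.2))) (m1.prod m1) := by
    refine intprod m1_mem m1_mem (B := M) hmm ?_
    intro x y hx hy
    show |k (H * (x - y))| ≤ M
    rw [abs_of_nonneg (hk0 _)]
    exact hkM _ (hab x hx y hy)
  refine ⟨hint, ?_⟩
  rw [integral_prod _ hint]
  have hki : IntervalIntegrable k volume (-H) H := by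
    rw [intervalIntegrable_iff]
    refine Measure.integrableOn_of_bounded (M := M) ?_ hk.aestronglyMeasurable ?_
    · rw [Set.uIoc]; simp
    · rw [ae_restrict_iff' measurableSet_uIoc]
      filter_upwards with s hs
      rw [Set.uIoc_of_le (by linarith)] at hs
      rw [Real.norm_eq_abs, abs_of_nonneg (hk0 _)]
      exact hkM s (abs_le.mpr ⟨by linarith [hs.1], hs.2⟩)
  calc ∫ x, ∫ y, k (H * (x - y)) ∂m1 ∂m1 ≤ ∫ _x, (1 / H) * (∫ h in (-H)..H, k h) ∂m1 := by
        refine integral_mono_ae hint.integral_prod_left (integrable_const _) ?_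
        filter_upwards [m1_mem] with x hx
        have e1 : ∫ y, k (H * (x - y)) ∂m1 = ∫ y in (0:ℝ)..1, k (H * x - H * y) := by
          rw [intervalIntegral.integral_of_le zero_le_one]
          simp only [mul_sub]
        show ∫ y, k (H * (x - y)) ∂m1 ≤ _
        rw [e1, intervalIntegral.integral_comp_sub_mul (fun h => k h) hH.ne' (H * x)]
        rw [smul_eq_mul, mul_one, mul_zero, sub_zero, ← one_div]
        refine mul_le_mul_of_nonneg_left ?_ (by positivity)
        have hx1 : H * x ≤ H := by nlinarith [hx.2]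
        have hx0 : 0 ≤ H * x := mul_nonneg hH.le hx.1.le
        exact intervalIntegral.integral_mono_interval (by linarith) (by linarith) hx1
          (Eventually.of_forall fun h => hk0 h) hki
    _ = (1 / H) * ∫ h in (-H)..H, k h := m1_int _

end Pool.Agent.V5helper72.HM
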